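import Pool.Agent.Lib.MP_305fdd_al.Su.Fo.DD
import Pool.Agent.Lib.MP_305fdd_al.Su.L.AmHn
import Pool.Agent.Lib.MP_305fdd_al.Fr.S.RefAdm

/-!
# MP_305fdd_al, closed surface groups: a minimal splitting has no abelian vertices (master text, 3.2)
-/

set_option autoImplicit false
set_option linter.unusedSectionVars false

namespace Pool.Agent.SuFo

open Matrix Pool.Agent.FrN Pool.Agent.FrS Pool.Agent.FrS.GG Pool.Agent.FrAsm

/-- no amalgam `A *_C M`, `M` abelian, `C ≠ M` -/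
def EXh (Γ : Type) [Group Γ] : Prop := ∀ A M C : Subgroup Γ, IsAm ⊤ A M C → A.FG → M.FG →
  (∀ x ∈ M, ∀ y ∈ M, x * y = y * x) → C ≠ ⊥ → (∃ m ∈ M, m ∉ C) → False

section leaf

variable {Γ : Type} [Group Γ]

theorem card_ctr' (S : GG Γ) (e₀ : S.E) (h0 : S.a e₀ ≠ S.b e₀) :
    Fintype.card (S.ctr e₀ h0).E < Fintype.card S.E := card_ctr S e₀ h0

/-- an admissible splitting has no abelian leaf -/
theorem no_leaf (hex : EXh Γ) (S : GG Γ) (hS : S.Adm) (x : S.V) (e : S.E) (hne : S.a e ≠ S.b e)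
    (hx : S.a e = x ∨ S.b e = x) (hl : S.Leaf x e) (hab : ¬ S.NA x) : False := by
  obtain ⟨n, hn⟩ : ∃ n, Fintype.card S.E = n := ⟨_, rfl⟩
  induction n using Nat.strong_induction_on generalizing S with
  | _ n ih =>
    by_cases h1 : ∀ e' : S.E, e' = e
    · have h2 := SuL.one_am S hS.toUP e h1 hne
      rcases hx with rfl | rfl
      · exact hex _ _ _ h2.symm (SuL.fg_map_conj (hS.fgV _) _) (hS.fgV _) (not_not.1 hab)
          (hS.ne e) (hS.nta e hne hl)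
      · refine hex _ _ _ h2 (hS.fgV _) (SuL.fg_map_conj (hS.fgV _) _) ?_ (hS.ne e) ?_
        · rintro _ ⟨y, hy, rfl⟩ _ ⟨z, hz, rfl⟩
          rw [← map_mul, ← map_mul, not_not.1 hab y hy z hz]
        · obtain ⟨g, hg, hg'⟩ := hS.ntb e hne hl
          exact ⟨S.s e * g * (S.s e)⁻¹, ⟨g, hg, rfl⟩, hg'⟩
    push Not at h1
    obtain ⟨e₀, h1⟩ := h1
    have hxa : x ≠ S.a e₀ := fun h => h1 (hl e₀ (Or.inl h.symm))
    have hxb : x ≠ S.b e₀ := fun h => h1 (hl e₀ (Or.inr h.symm))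
    by_cases h0 : S.a e₀ = S.b e₀
    · refine ih (Fintype.card (S.ctrL e₀).E) (hn ▸ card_ctrL S e₀) (S.ctrL e₀)
        (S.ctrL_adm e₀ h0.symm hS) (S.lV e₀ x) (S.lE e₀ e h1.symm) hne hx ?_ ?_ rfl
      · intro e' he'
        exact Subtype.ext (hl (S.lF e₀ e') he')
      · unfold GG.NA
        rw [ctrL_G_ne _ _ hxa]
        exact hab
    · have hφ : ∀ u, S.cφ e₀ h0 u = S.cφ e₀ h0 x → u = x := by
        intro u hu
        by_cases h : u = S.b e₀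
        · subst h
          rw [cφ_b, cφ_eq_iff _ _ _ h0 hxb] at hu
          exact absurd hu.symm hxa
        · exact (S.cφ_eq_iff e₀ h0 h hxb).1 hu
      refine ih (Fintype.card (S.ctr e₀ h0).E) (hn ▸ card_ctr S e₀ h0) (S.ctr e₀ h0)
        (SuL.ctr_adm' S e₀ h0 hS) (S.cφ e₀ h0 x) (S.cE e₀ h0 e h1.symm) ?_ ?_ ?_ ?_ rfl
      · rw [ctr_a, ctr_b, cF_cE]
        intro h
        rcases hx with hx | hx
        · rw [hx] at h hne
          exact hne (hφ _ h.symm).symm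
        · rw [hx] at h hne
          exact hne (hφ _ h)
      · rw [ctr_a, ctr_b, cF_cE]
        exact hx.imp (fun h => by rw [h]) fun h => by rw [h]
      · intro e' he'
        rw [ctr_a, ctr_b] at he'
        have h3 := hl (S.cF e₀ h0 e') (he'.imp (hφ _) (hφ _))
        exact Subtype.ext h3
      · unfold GG.NA
        rw [ctr_G_ne _ _ _ hxa hxb]
        exact hab

end leaf

section sum

variable {Γ F : Type} [Group Γ] [Field F] [Algebra (ZMod 2) F]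
  {ρ : Γ →* SpecialLinearGroup (Fin 2) F}

theorem ctr_Tm {S : GG Γ} {e₀ : S.E} (h0 : S.a e₀ ≠ S.b e₀) {w : S.V} (ha : w ≠ S.a e₀)
    (hb : w ≠ S.b e₀) : Tm ρ (S.ctr e₀ h0) (S.cφ e₀ h0 w) = Tm ρ S w := by
  unfold Tm
  have h1 : (S.ctr e₀ h0).NA (S.cφ e₀ h0 w) ↔ S.NA w := by
    unfold GG.NA
    rw [ctr_G_ne _ _ _ ha hb]
  by_cases h2 : S.NA w
  · rw [if_pos h2, if_pos (h1.2 h2), ctr_dv _ _ _ _ ha hb, ctr_G_ne _ _ _ ha hb]
  · rw [if_neg h2, if_neg (fun h3 => h2 (h1.1 h3))]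

theorem ctr_DD_le {S : GG Γ} {e₀ : S.E} (h0 : S.a e₀ ≠ S.b e₀)
    (h : Tm ρ (S.ctr e₀ h0) (S.cφ e₀ h0 (S.a e₀)) ≤ Tm ρ S (S.a e₀) + Tm ρ S (S.b e₀)) :
    DD ρ (S.ctr e₀ h0) ≤ DD ρ S := by
  classical
  rw [DD_eq, DD_eq]
  have h1 : ∑ w' : (S.ctr e₀ h0).V, Tm ρ (S.ctr e₀ h0) w' =
      ∑ w ∈ Finset.univ.erase (S.b e₀), Tm ρ (S.ctr e₀ h0) (S.cφ e₀ h0 w) := by
    refine Finset.sum_nbij' (S.cσ e₀ h0) (S.cφ e₀ h0) ?_ ?_ ?_ ?_ ?_
    · intro w' _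
      exact Finset.mem_erase.2 ⟨S.cσ_ne e₀ h0 w', Finset.mem_univ _⟩
    · intro w _
      exact Finset.mem_univ _
    · intro w' _
      exact S.cφ_cσ e₀ h0 w'
    · intro w hw
      exact S.cσ_cφ e₀ h0 (Finset.ne_of_mem_erase hw)
    · intro w' _
      rw [cφ_cσ]
  rw [h1, ← Finset.add_sum_erase Finset.univ _ (Finset.mem_univ (S.b e₀)),
    ← Finset.add_sum_erase (Finset.univ.erase (S.b e₀)) _
      (Finset.mem_erase.2 ⟨h0, Finset.mem_univ (S.a e₀)⟩),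
    ← Finset.add_sum_erase (Finset.univ.erase (S.b e₀)) (fun w => Tm ρ S w)
      (Finset.mem_erase.2 ⟨h0, Finset.mem_univ (S.a e₀)⟩)]
  have h2 : ∑ w ∈ (Finset.univ.erase (S.b e₀)).erase (S.a e₀),
      Tm ρ (S.ctr e₀ h0) (S.cφ e₀ h0 w) =
      ∑ w ∈ (Finset.univ.erase (S.b e₀)).erase (S.a e₀), Tm ρ S w := by
    refine Finset.sum_congr rfl fun w hw => ?_
    rw [Finset.mem_erase, Finset.mem_erase] at hw
    exact ctr_Tm h0 hw.1 hw.2.1
  rw [h2]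
  omega

end sum

section full

variable {Γ : Type} [Group Γ]

/-- the group of the vertex `x` in the coordinates of the edge `e` at `x` -/
def fl (S : GG Γ) (x : S.V) (e : S.E) : Subgroup Γ :=
  if S.a e = x then S.G x else cj (S.s e)⁻¹ (S.G x)

theorem C_le_fl (S : GG Γ) (x : S.V) (e : S.E) (hx : S.a e = x ∨ S.b e = x) :
    S.C e ≤ fl S x e := by
  unfold fl
  split_ifs with h
  · subst h
    exact S.Ca e
  · have hb := hx.resolve_left h
    subst hb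
    intro c hc
    rw [mem_cj, inv_inv]
    exact S.Cb e c hc

theorem cj_ab {s : Γ} {G : Subgroup Γ} (h : ∀ x ∈ G, ∀ y ∈ G, x * y = y * x) :
    ∀ x ∈ cj s G, ∀ y ∈ cj s G, x * y = y * x := by
  intro x hx y hy
  have h1 := h _ hx _ hy
  change s * x * s⁻¹ * (s * y * s⁻¹) = s * y * s⁻¹ * (s * x * s⁻¹) at h1
  have h2 : x * y = s⁻¹ * (s * x * s⁻¹ * (s * y * s⁻¹)) * s := by group
  rw [h2, h1]
  group

theorem fl_ab (S : GG Γ) (x : S.V) (e : S.E) (h : ¬ S.NA x) :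
    ∀ y ∈ fl S x e, ∀ z ∈ fl S x e, y * z = z * y := by
  unfold fl
  split_ifs
  · exact not_not.1 h
  · exact cj_ab (not_not.1 h)

theorem fl_fg (S : GG Γ) (x : S.V) (e : S.E) (h : (S.G x).FG) : (fl S x e).FG := by
  unfold fl
  split_ifs
  · exact h
  · exact fg_comap_conj h _

theorem cj_cj (s : Γ) (G : Subgroup Γ) : cj s (cj s⁻¹ G) = G := by
  ext x
  rw [mem_cj, mem_cj]
  have h : s⁻¹ * (s * x * s⁻¹) * s⁻¹⁻¹ = x := by group
  rw [h]

theorem cj_cj' (s : Γ) (G : Subgroup Γ) : cj s⁻¹ (cj s G) = G := by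
  ext x
  rw [mem_cj, mem_cj]
  have h : s * (s⁻¹ * x * s⁻¹⁻¹) * s⁻¹ = x := by group
  rw [h]

theorem fl_okk (S : GG Γ) (x : S.V) (e : S.E) (hx : S.a e = x ∨ S.b e = x)
    (hl : ¬ S.Leaf x e) : Okk S e (fl S x e) := by
  by_cases h : S.a e = x
  · left
    unfold fl
    rw [if_pos h]
    subst h
    exact ⟨le_rfl, Or.inr hl⟩
  · right
    have hb := hx.resolve_left h
    unfold fl
    rw [if_neg h]
    subst hb
    rw [cj_cj]
    exact ⟨le_rfl, Or.inr hl⟩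

theorem enG_fl (S : GG Γ) (x : S.V) (e : S.E) (hx : S.a e = x ∨ S.b e = x)
    (hne : S.a e ≠ S.b e) : enG S e (fl S x e) x = S.G x := by
  apply le_antisymm ?_ (le_enG _ _ _ _)
  refine enG_le _ _ _ le_rfl ?_ ?_
  · intro h
    unfold fl
    rw [if_pos h.symm]
  · intro h
    have h1 : S.a e ≠ x := fun h2 => hne (h2.trans h)
    unfold fl
    rw [if_neg h1, cj_cj]

theorem fl_enl (S : GG Γ) (x : S.V) (e₀ e : S.E) (M : Subgroup Γ)
    (h : enG S e₀ M x = S.G x) : fl (enl S e₀ M) x e = fl S x e := by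
  change (if S.a e = x then enG S e₀ M x else cj (S.s e)⁻¹ (enG S e₀ M x)) = _
  rw [h]
  rfl

/-- an element of `fl S x e` is conjugate to an element of `G x` -/
theorem mem_fl {S : GG Γ} {x : S.V} {e : S.E} {c : Γ} (hc : c ∈ fl S x e) :
    ∃ k : Γ, k⁻¹ * c * k ∈ S.G x := by
  unfold fl at hc
  split_ifs at hc
  · exact ⟨1, by rw [inv_one, one_mul, mul_one]; exact hc⟩
  · rw [mem_cj, inv_inv] at hc
    exact ⟨_, hc⟩

theorem fl_mem {S : GG Γ} {x : S.V} (e : S.E) {g : Γ} (hg : g ∈ S.G x) :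
    ∃ k : Γ, k * g * k⁻¹ ∈ fl S x e := by
  unfold fl
  split_ifs
  · exact ⟨1, by rw [inv_one, one_mul, mul_one]; exact hg⟩
  · refine ⟨S.s e, ?_⟩
    rw [mem_cj]
    have h : (S.s e)⁻¹ * (S.s e * g * (S.s e)⁻¹) * (S.s e)⁻¹⁻¹ = g := by group
    rwa [h]

end full

section two

variable {Γ F : Type} [Group Γ] [Field F] [Algebra (ZMod 2) F]
  {ρ : Γ →* SpecialLinearGroup (Fin 2) F}

theorem trs_cj (s : Γ) (G : Subgroup Γ) :
    trs ρ (cj s G : Set Γ) = trs ρ (G : Set Γ) := by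
  ext t
  constructor
  · rintro ⟨x, hx, rfl⟩
    exact ⟨_, hx, tr_cj' _ _⟩
  · rintro ⟨x, hx, rfl⟩
    exact ⟨_, mem_cj' hx, tr_cj _ _⟩

/-- contraction of an edge which is full at an abelian vertex -/
theorem ctr_full (hfin : er (Set.univ : Set F) ≠ ⊤) (S : GG Γ) (x : S.V)
    (f₁ f₂ : S.E) (h12 : f₂ ≠ f₁)
    (h0 : S.a f₁ ≠ S.b f₁) (hf₁ : S.a f₁ = x ∨ S.b f₁ = x) (hf₂ : S.a f₂ = x ∨ S.b f₂ = x)
    (hC₁ : S.C f₁ = fl S x f₁) (hC₂ : S.C f₂ = fl S x f₂) :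
    DD ρ (S.ctr f₁ h0) ≤ DD ρ S := by
  apply ctr_DD_le
  -- the other end
  obtain ⟨y, hy, hyab⟩ : ∃ y, (∃ s, (S.ctr f₁ h0).G (S.cφ f₁ h0 (S.a f₁)) = cj s (S.G y)) ∧
      (y = S.a f₁ ∨ y = S.b f₁) := by
    by_cases h : S.a f₁ = x
    · refine ⟨S.b f₁, ⟨(S.s f₁)⁻¹, ?_⟩, Or.inr rfl⟩
      rw [ctr_G_a]
      apply sup_eq_right.2
      unfold fl at hC₁
      rw [if_pos h] at hC₁
      rw [h, ← hC₁]
      intro c hc
      change (S.s f₁)⁻¹ * c * (S.s f₁)⁻¹⁻¹ ∈ S.G (S.b f₁)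
      rw [inv_inv]
      exact S.Cb f₁ c hc
    · refine ⟨S.a f₁, ⟨1, ?_⟩, Or.inl rfl⟩
      rw [ctr_G_a]
      unfold fl at hC₁
      rw [if_neg h] at hC₁
      have hb := hf₁.resolve_left h
      have h1 : cj (S.s f₁)⁻¹ (S.G (S.b f₁)) ≤ S.G (S.a f₁) := by
        rw [hb, ← hC₁]
        exact S.Ca f₁
      have h2 : cj 1 (S.G (S.a f₁)) = S.G (S.a f₁) := by
        ext z
        rw [mem_cj, inv_one, one_mul, mul_one]
      rw [h2]
      exact sup_eq_left.2 h1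
  obtain ⟨s, hs⟩ := hy
  have hφy : S.cφ f₁ h0 y = S.cφ f₁ h0 (S.a f₁) := by
    rcases hyab with rfl | rfl
    · rfl
    · exact S.cφ_b f₁ h0
  have hφx : S.cφ f₁ h0 x = S.cφ f₁ h0 (S.a f₁) := by
    rcases hf₁ with rfl | rfl
    · rfl
    · exact S.cφ_b f₁ h0
  have main : Tm ρ (S.ctr f₁ h0) (S.cφ f₁ h0 (S.a f₁)) ≤ Tm ρ S y := by
    unfold Tm
    by_cases hna : S.NA y
    · rw [if_pos hna]
      split_ifs
      · rw [hs, trs_cj]
        refine Nat.sub_le_sub_left (rk_mono hfin (er_mono ?_)) _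
        rintro _ ⟨c, ⟨e, he, hc⟩, rfl⟩
        by_cases hef : e = f₁
        · subst hef
          rw [hC₁] at hc
          obtain ⟨k, hk⟩ := mem_fl hc
          obtain ⟨k', hk'⟩ := fl_mem f₂ hk
          rw [← hC₂] at hk'
          refine ⟨S.cτ e (S.a f₂) * (k' * (k⁻¹ * c * k) * k'⁻¹) * (S.cτ e (S.a f₂))⁻¹,
            ⟨S.cE e h0 f₂ h12, ?_, ?_⟩, ?_⟩
          · rw [ctr_a, ctr_b, cF_cE, ← hφx]
            exact hf₂.imp (fun h => by rw [h]) fun h => by rw [h]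
          · rw [mem_ctr_C, cF_cE]
            have h2 : ∀ t z : Γ, t⁻¹ * (t * z * t⁻¹) * t = z := fun t z => by group
            rw [h2]
            exact hk'
          · rw [tr_cj', tr_cj', tr_cj]
        · refine ⟨S.cτ f₁ (S.a e) * c * (S.cτ f₁ (S.a e))⁻¹, ⟨S.cE f₁ h0 e hef, ?_, ?_⟩, ?_⟩
          · rw [ctr_a, ctr_b, cF_cE, ← hφy]
            exact he.imp (fun h => by rw [h]) fun h => by rw [h]
          · rw [mem_ctr_C, cF_cE]
            have h2 : (S.cτ f₁ (S.a e))⁻¹ * (S.cτ f₁ (S.a e) * c * (S.cτ f₁ (S.a e))⁻¹) *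
              S.cτ f₁ (S.a e) = c := by group
            rwa [h2]
          · rw [tr_cj']
      · exact Nat.zero_le _
    · rw [if_neg hna, if_neg]
      refine not_not.2 ?_
      rw [hs]
      exact cj_ab (not_not.1 hna)
  rcases hyab with h | h
  · rw [h] at main
    exact le_trans main (Nat.le_add_right _ _)
  · rw [h] at main
    exact le_trans main (Nat.le_add_left _ _)

/-- an abelian vertex of a minimal splitting is an end of at most one edge -/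
theorem no_two (hTor : Tor Γ) (hT : ∀ g, tr ρ g = 0 → g = 1)
    (hfin : er (Set.univ : Set F) ≠ ⊤) (S : GG Γ) (hS : Smin ρ S) (x : S.V) (hx : ¬ S.NA x)
    (f₁ f₂ : S.E) (h12 : f₂ ≠ f₁) (hf₁ : S.a f₁ = x ∨ S.b f₁ = x)
    (hf₂ : S.a f₂ = x ∨ S.b f₂ = x) : False := by
  have hloop : ∀ e, (S.a e = x ∨ S.b e = x) → S.a e ≠ S.b e := by
    intro e he h
    have h1 := smin_loop hTor hS e h.symm
    rcases he with he | he
    · rw [he] at h1
      exact hx h1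
    · rw [h, he] at h1
      exact hx h1
  have hl₁ : ¬ S.Leaf x f₁ := fun h => h12 (h f₂ hf₂)
  have hl₂ : ¬ S.Leaf x f₂ := fun h => h12 (h f₁ hf₁).symm
  set M₁ := fl S x f₁ with hM₁
  set S1 := enl S f₁ M₁ with hS1
  have s1 : Smin ρ S1 := enl_smin hTor hT hfin hS (C_le_fl S x f₁ hf₁) (fl_okk S x f₁ hf₁ hl₁)
    (fl_ab S x f₁ hx) (fl_fg S x f₁ (hS.1.fgV x))
  have hG1 : S1.G x = S.G x := enG_fl S x f₁ hf₁ (hloop f₁ hf₁)
  have hx1 : ¬ S1.NA x := by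
    refine not_not.2 ?_
    rw [hG1]
    exact not_not.1 hx
  set M₂ := fl S1 x f₂ with hM₂
  set S2 := enl S1 f₂ M₂ with hS2
  have s2 : Smin ρ S2 := enl_smin hTor hT hfin s1 (C_le_fl S1 x f₂ hf₂)
    (fl_okk S1 x f₂ hf₂ hl₂) (fl_ab S1 x f₂ hx1) (fl_fg S1 x f₂ (s1.1.fgV x))
  have hG2 : S2.G x = S1.G x := enG_fl S1 x f₂ hf₂ (hloop f₂ hf₂)
  have hx2 : ¬ S2.NA x := by
    refine not_not.2 ?_
    rw [hG2]
    exact not_not.1 hx1
  have hC2 : S2.C f₂ = fl S2 x f₂ := by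
    rw [fl_enl S1 x f₂ f₂ M₂ hG2]
    exact enl_C_self S1 f₂ M₂
  have hC1 : S2.C f₁ = fl S2 x f₁ := by
    rw [fl_enl S1 x f₂ f₁ M₂ hG2, fl_enl S x f₁ f₁ M₁ hG1]
    exact (enl_C_ne S1 f₂ M₂ (e := f₁) h12.symm).trans (enl_C_self S f₁ M₁)
  have h0 : S2.a f₁ ≠ S2.b f₁ := hloop f₁ hf₁
  have hD : DD ρ (S2.ctr f₁ h0) ≤ DD ρ S2 :=
    ctr_full hfin S2 x f₁ f₂ h12 h0 hf₁ hf₂ hC1 hC2
  rcases s2.2 _ (SuL.ctr_adm' S2 f₁ h0 s2.1) with h1 | ⟨_, h1⟩
  · exact absurd h1 (not_lt.2 hD)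
  · exact absurd (card_ctr S2 f₁ h0) (not_lt.2 h1)

/-- NO ABELIAN VERTICES in a minimal splitting. -/
theorem smin_NA (hTor : Tor Γ) (hT : ∀ g, tr ρ g = 0 → g = 1)
    (hfin : er (Set.univ : Set F) ≠ ⊤) (hnab : ¬ ∀ x y : Γ, x * y = y * x) (hex : EXh Γ)
    (S : GG Γ) (hS : Smin ρ S) (x : S.V) : S.NA x := by
  by_contra hx
  by_cases hedge : ∃ e, S.a e = x ∨ S.b e = x
  · obtain ⟨e, he⟩ := hedge
    have hne : S.a e ≠ S.b e := by
      intro h
      have h1 := smin_loop hTor hS e h.symm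
      rcases he with he | he
      · rw [he] at h1
        exact hx h1
      · rw [h, he] at h1
        exact hx h1
    by_cases hl : S.Leaf x e
    · exact no_leaf hex S hS.1 x e hne he hl hx
    · unfold GG.Leaf at hl
      push Not at hl
      obtain ⟨e', h1, h2⟩ := hl
      exact no_two hTor hT hfin S hS x hx e e' h2 he h1
  · push Not at hedge
    have key : ∀ {w g}, S.Pth x w g → w = x ∧ g ∈ S.G x := by
      intro w g hp
      induction hp with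
      | one => exact ⟨rfl, one_mem _⟩
      | grp _ hy ih =>
        obtain ⟨h1, h2⟩ := ih
        subst h1
        exact ⟨rfl, mul_mem h2 hy⟩
      | fwd e _ ih => exact absurd ih.1 (hedge e).1
      | bwd e _ ih => exact absurd ih.1 (hedge e).2
    exact hnab fun y z => not_not.1 hx y (key (hS.1.gen x x y)).2 z (key (hS.1.gen x x z)).2

end two

end Pool.Agent.SuFo
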