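import Pool.Agent.Lib.MP_305fdd_al.Su.Fo.Sat
import Pool.Agent.Lib.MP_305fdd_al.Su.L.First
import Pool.Agent.Lib.MP_305fdd_al.Su.AE.Main

/-!
# MP_305fdd_al, closed surface groups: a saturated splitting with a cyclic edge (master text, 3.1-3.3)
-/

set_option autoImplicit false
set_option linter.unusedSectionVars false

namespace Pool.Agent.SuFo

open Matrix Pool.Agent.FrN Pool.Agent.FrS Pool.Agent.FrS.GG Pool.Agent.FrAsm Pool.Agent.SuH
  Pool.Agent.SuS Pool.Agent.SuL Pool.Agent.F2Ch Pool.Agent.F2RF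

section

variable {Γ K F : Type} [Group Γ] [Field K] [Field F] [Algebra (ZMod 2) K]
  [Algebra (ZMod 2) F] [Algebra K F] {T : Γ → K} {ρ : Γ →* SpecialLinearGroup (Fin 2) F}

/-- every minimal splitting has a cyclic edge -/
theorem smin_cyc (H : Sc Γ K F T ρ) (h2 : NSG T ρ) (hn : NIL T) (S : GG Γ) (hS : Smin ρ S) :
    ∃ e, Cyc S e := by
  by_contra hcyc
  push Not at hcyc
  have hy : SafeProd T S 1 := ⟨fun _ => 1, fun e he => absurd he (hcyc e), fun _ _ => rfl, by simp⟩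
  have hyB : (1 : K) ∈ BV T S := one_mem _
  have hQ : FrF.PropQ 2 (BVy T S 1).toSubring := by
    rcases FrD.dichotomy (BVy T S 1) (sc_BVy_fg H hS.1.fgV hyB) (fun x => BVy_frac 1 x) with
      ⟨x, hx⟩ | ⟨O, d, f, hb⟩
    · exact absurd ⟨x, hx⟩ (h2 S hS 1 hy)
    · have : CharP (KV T S) 2 :=
        charP_of_injective_algebraMap (algebraMap (ZMod 2) (KV T S)).injective 2
      exact FrF.base 2 (BVy T S 1) (sc_BVy_fg H hS.1.fgV hyB) (fun x => BVy_frac 1 x) hb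
  have hQ' := p_lau' H S hS.1 1 hyB one_ne_zero hQ
  obtain ⟨Φ, hΦ, c, hcB, hc0, h⟩ := hn
  obtain ⟨z, hz, hn⟩ := hQ' Φ hΦ c (le_ly _ 1 hcB) hc0
  obtain ⟨β, hβ, a, rfl⟩ := ly_form (B := BB 2 T) (one_mem _) one_ne_zero hz
  rw [one_pow, div_one] at hn
  obtain ⟨e, he⟩ := h β hβ
  exact hn e (by rw [mul_comm]; exact he)

end

variable {g : ℕ} {Λ Γ K F : Type} [Group Λ] [Group Γ] [Field K] [Field F] [Algebra (ZMod 2) K]
  [Algebra (ZMod 2) F] [Algebra K F] {T : Γ → K} {ρ : Γ →* SpecialLinearGroup (Fin 2) F}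
  {π : Λ →* Γ}

theorem exh_of (H : Sc Γ K F T ρ) (D : Gd0 g π ρ) (hcup : SuAE.Cup Γ) : EXh Γ :=
  fun _ _ _ h hA hM hab hC hne => SuAE.ex H D hcup h hA hM hab hC hne

/-- A SATURATED SPLITTING WITH A CYCLIC EDGE. -/
theorem exists_sat_cyc (H : Sc Γ K F T ρ) (D : Gd0 g π ρ) (hcup : SuAE.Cup Γ) (h2 : NSG T ρ)
    (hn : NIL T) : ∃ S : GG Γ, Smin ρ S ∧ Sat S ∧ ∃ e z, S.C e = Subgroup.zpowers z := by
  obtain ⟨S, hS, hs⟩ := exists_sat H (exh_of H D hcup)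
  exact ⟨S, hS, hs, smin_cyc H h2 hn S hS⟩

end Pool.Agent.SuFo
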