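import Pool.Agent.Lib.MP_305fdd_al.Su.Fo.Enl
import Mathlib.RingTheory.AlgebraicIndependent.TranscendenceBasis
import Mathlib.Combinatorics.Matroid.Rank.ENat

/-!
# MP_305fdd_al, closed surface groups: the measure does not grow if an edge group is enlarged
(master text, 3.1)
-/

set_option autoImplicit false
set_option linter.unusedSectionVars false

namespace Pool.Agent.SuFo

open Matrix Pool.Agent.FrN Pool.Agent.FrS Pool.Agent.FrS.GG Pool.Agent.FrAsm

section traces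

variable {Γ F : Type} [Group Γ] [Field F] [Algebra (ZMod 2) F]
  {ρ : Γ →* SpecialLinearGroup (Fin 2) F}

/-- the algebraic closure of a set in `F` -/
theorem exists_cl (X : Set F) : ∃ Z : Subalgebra (ZMod 2) F, X ⊆ (Z : Set F) ∧
    (∀ a : F, IsAlgebraic Z a → a ∈ Z) ∧ er (Z : Set F) = er X := by
  have h1 : (AlgebraicIndependent.matroid (ZMod 2) F).IsFlat
      ((AlgebraicIndependent.matroid (ZMod 2) F).closure X) := Matroid.isFlat_closure _
  obtain ⟨Z, hZ, h2⟩ := AlgebraicIndependent.matroid_isFlat_iff.1 h1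
  refine ⟨Z, ?_, ?_, ?_⟩
  · rw [hZ]
    exact Matroid.subset_closure _ X (Set.subset_univ _)
  · intro a ha
    have h3 := h2 a ha
    rw [← hZ] at h3
    exact h3
  · rw [hZ]
    exact Matroid.eRk_closure_eq _ X

/-- an element which commutes with an element of nonzero trace -/
theorem comm_form (C W : Matrix (Fin 2) (Fin 2) F) (h2 : (2 : F) = 0) (hc : C * W = W * C)
    (ht : C.trace ≠ 0) : W = (W 0 0 - W.trace / C.trace * C 0 0) • (1 : Matrix (Fin 2) (Fin 2) F) +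
      (W.trace / C.trace) • C := by
  have e00 := congrFun (congrFun hc 0) 0
  have e01 := congrFun (congrFun hc 0) 1
  have e10 := congrFun (congrFun hc 1) 0
  simp only [Matrix.mul_apply, Fin.sum_univ_two] at e00 e01 e10
  have htr : C.trace = C 0 0 + C 1 1 := Matrix.trace_fin_two C
  have htr' : W.trace = W 0 0 + W 1 1 := Matrix.trace_fin_two W
  have hβ : W.trace / C.trace * C.trace = W.trace := div_mul_cancel₀ _ ht
  generalize W.trace / C.trace = β at hβ ⊢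
  rw [htr, htr'] at hβ
  rw [htr] at ht
  have k01 : W 0 1 = β * C 0 1 := by
    have h3 : (W 0 1 - β * C 0 1) * (C 0 0 + C 1 1) = 0 := by
      linear_combination e01 - C 0 1 * hβ + (W 0 1 * C 1 1 - C 0 1 * W 1 1) * h2
    exact sub_eq_zero.1 ((mul_eq_zero.1 h3).resolve_right ht)
  have k10 : W 1 0 = β * C 1 0 := by
    have h3 : (W 1 0 - β * C 1 0) * (C 0 0 + C 1 1) = 0 := by
      linear_combination -e10 - C 1 0 * hβ + (W 1 0 * C 1 1 - C 1 0 * W 1 1) * h2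
    exact sub_eq_zero.1 ((mul_eq_zero.1 h3).resolve_right ht)
  have k11 : W 1 1 = W 0 0 - β * C 0 0 + β * C 1 1 := by
    linear_combination -hβ + (β * C 0 0 - W 0 0) * h2
  ext i j
  fin_cases i <;> fin_cases j
  · simp
  · simpa using k01
  · simpa using k10
  · simpa using k11

/-- adding elements which commute with elements of a subgroup `G` does not add new algebraically
independent traces, except their own traces -/
theorem tr_sup (h2 : (2 : F) = 0) (Z : Subalgebra (ZMod 2) F)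
    (hZ : ∀ a : F, IsAlgebraic Z a → a ∈ Z) (G : Subgroup Γ) (N : Set Γ)
    (hG : ∀ g ∈ G, tr ρ g ∈ Z)
    (hN : ∀ n ∈ N, tr ρ n ∈ Z ∧ ∃ c ∈ G, tr ρ c ≠ 0 ∧ n * c = c * n) :
    ∀ x ∈ Subgroup.closure ((G : Set Γ) ∪ N), tr ρ x ∈ Z := by
  classical
  let A : Submodule Z (Matrix (Fin 2) (Fin 2) F) :=
    Submodule.span Z ((fun g : Γ => (ρ g).1) '' (G : Set Γ))
  have hAG : ∀ g ∈ G, (ρ g).1 ∈ A := fun g hg => Submodule.subset_span ⟨g, hg, rfl⟩
  have hone : (1 : Matrix (Fin 2) (Fin 2) F) ∈ A := by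
    have h := hAG 1 (one_mem _)
    rw [map_one] at h
    exact h
  have hmul : ∀ x ∈ A, ∀ y ∈ A, x * y ∈ A := by
    have h : A * A ≤ A := by
      change Submodule.span Z _ * Submodule.span Z _ ≤ _
      rw [Submodule.span_mul_span]
      refine Submodule.span_mono ?_
      rintro _ ⟨_, ⟨g, hg, rfl⟩, _, ⟨h, hh, rfl⟩, rfl⟩
      refine ⟨g * h, mul_mem hg hh, ?_⟩
      change (ρ (g * h)).1 = (ρ g).1 * (ρ h).1
      rw [map_mul]
      rfl
    exact fun x hx y hy => h (Submodule.mul_mem_mul hx hy)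
  have htr : ∀ x ∈ A, x.trace ∈ Z := by
    intro x hx
    induction hx using Submodule.span_induction with
    | mem x hx =>
      obtain ⟨g, hg, rfl⟩ := hx
      exact hG g hg
    | zero =>
      rw [Matrix.trace_zero]
      exact zero_mem _
    | add x y _ _ hx hy =>
      rw [Matrix.trace_add]
      exact add_mem hx hy
    | smul a x _ hx =>
      rw [Matrix.trace_smul]
      exact mul_mem a.2 hx
  have key : ∀ x ∈ Subgroup.closure ((G : Set Γ) ∪ N), (ρ x).1 ∈ A := by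
    intro x hx
    induction hx using Subgroup.closure_induction with
    | mem x hx =>
      rcases hx with hx | hx
      · exact hAG x hx
      · obtain ⟨h1, c, hc, hc0, hcx⟩ := hN x hx
        have hcm : (ρ c).1 * (ρ x).1 = (ρ x).1 * (ρ c).1 := by
          rw [← Matrix.SpecialLinearGroup.coe_mul, ← Matrix.SpecialLinearGroup.coe_mul, ← map_mul,
            ← map_mul, hcx]
        have hf := comm_form (ρ c).1 (ρ x).1 h2 hcm hc0
        have hβ : (ρ x).1.trace / (ρ c).1.trace ∈ Z := by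
          rw [div_eq_mul_inv]
          refine mul_mem h1 (hZ _ ?_)
          have h3 : IsAlgebraic Z (ρ c).1.trace :=
            isAlgebraic_algebraMap (⟨_, hG c hc⟩ : Z)
          exact h3.inv
        have hβ' : (ρ x).1.trace / (ρ c).1.trace * (ρ c).1.trace = (ρ x).1.trace :=
          div_mul_cancel₀ _ hc0
        generalize (ρ x).1.trace / (ρ c).1.trace = β at hf hβ hβ'
        have hα : (ρ x).1 0 0 - β * (ρ c).1 0 0 ∈ Z := by
          apply hZ
          have hdc : (ρ c).1 0 0 * (ρ c).1 1 1 - (ρ c).1 0 1 * (ρ c).1 1 0 = 1 := by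
            have h3 := (ρ c).2
            rwa [Matrix.det_fin_two] at h3
          have hdx : (ρ x).1 0 0 * (ρ x).1 1 1 - (ρ x).1 0 1 * (ρ x).1 1 0 = 1 := by
            have h3 := (ρ x).2
            rwa [Matrix.det_fin_two] at h3
          have f01 := congrFun (congrFun hf 0) 1
          have f10 := congrFun (congrFun hf 1) 0
          have f11 := congrFun (congrFun hf 1) 1
          simp only [Matrix.add_apply, Matrix.smul_apply, smul_eq_mul, Matrix.one_apply_eq,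
            mul_one, ne_eq, zero_ne_one, not_false_eq_true, Matrix.one_apply_ne, one_ne_zero,
            mul_zero, zero_add] at f01 f10 f11
          refine ⟨Polynomial.X ^ 2 + Polynomial.C (⟨β, hβ⟩ * ⟨_, hG c hc⟩ : Z) * Polynomial.X +
            Polynomial.C (⟨β, hβ⟩ * ⟨β, hβ⟩ - 1 : Z), ?_, ?_⟩
          · intro h0
            have h3 := congrArg (fun p => Polynomial.coeff p 2) h0
            simp [Polynomial.coeff_one] at h3
          · simp only [map_add, map_mul, map_pow, Polynomial.aeval_X, Polynomial.aeval_C, map_sub,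
              map_one]
            change ((ρ x).1 0 0 - β * (ρ c).1 0 0) ^ 2 + β * (ρ c).1.trace *
              ((ρ x).1 0 0 - β * (ρ c).1 0 0) + (β * β - 1) = 0
            rw [Matrix.trace_fin_two]
            rw [f01, f10, f11] at hdx
            linear_combination hdx - β ^ 2 * hdc
        rw [hf]
        exact A.add_mem (A.smul_mem ⟨_, hα⟩ hone) (A.smul_mem ⟨β, hβ⟩ (hAG c hc))
    | one =>
      rw [map_one]
      exact hone
    | mul x y _ _ hx hy =>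
      rw [map_mul]
      exact hmul _ hx _ hy
    | inv x _ hx =>
      have h3 : (ρ x⁻¹).1 = (ρ x).1.trace • (1 : Matrix (Fin 2) (Fin 2) F) - (ρ x).1 := by
        rw [map_inv, Matrix.SpecialLinearGroup.coe_inv, Matrix.adjugate_fin_two,
          Matrix.trace_fin_two]
        ext i j
        fin_cases i <;> fin_cases j <;> simp
      rw [h3]
      exact A.sub_mem (A.smul_mem ⟨_, htr _ hx⟩ hone) hx
  exact fun x hx => htr _ (key x hx)

end traces

section enl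

variable {Γ F : Type} [Group Γ] [Field F] [Algebra (ZMod 2) F]
  {ρ : Γ →* SpecialLinearGroup (Fin 2) F}

theorem two_zero (F : Type) [Field F] [Algebra (ZMod 2) F] : (2 : F) = 0 := by
  have _ := charTwo_of_alg F
  exact CharTwo.two_eq_zero

variable {S : GG Γ} {e₀ : S.E} {M : Subgroup Γ}

theorem enG_le_closure (w : S.V) : enG S e₀ M w ≤ Subgroup.closure ((S.G w : Set Γ) ∪
    {n | (w = S.a e₀ ∧ n ∈ M) ∨ (w = S.b e₀ ∧ n ∈ cj (S.s e₀) M)}) := by
  refine enG_le S e₀ M ?_ ?_ ?_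
  · exact fun x hx => Subgroup.subset_closure (Or.inl hx)
  · exact fun h x hx => Subgroup.subset_closure (Or.inr (Or.inl ⟨h, hx⟩))
  · exact fun h x hx => Subgroup.subset_closure (Or.inr (Or.inr ⟨h, hx⟩))

/-- the new elements commute with a nontrivial element of the vertex group -/
theorem new_comm (hne : S.C e₀ ≠ ⊥) (hC : S.C e₀ ≤ M) (hab : ∀ x ∈ M, ∀ y ∈ M, x * y = y * x)
    (w : S.V) (n : Γ) (hn : (w = S.a e₀ ∧ n ∈ M) ∨ (w = S.b e₀ ∧ n ∈ cj (S.s e₀) M)) :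
    ∃ c ∈ S.G w, c ≠ 1 ∧ n * c = c * n := by
  obtain ⟨c, hc1⟩ := (Subgroup.ne_bot_iff_exists_ne_one).1 hne
  have hcc : (c : Γ) ≠ 1 := fun h => hc1 (Subtype.ext h)
  rcases hn with ⟨rfl, hn⟩ | ⟨rfl, hn⟩
  · exact ⟨c, S.Ca e₀ c.2, hcc, hab n hn c (hC c.2)⟩
  · refine ⟨(S.s e₀)⁻¹ * c * S.s e₀, S.Cb e₀ c c.2, ?_, ?_⟩
    · intro h
      apply hcc
      have h1 : (c : Γ) = S.s e₀ * ((S.s e₀)⁻¹ * c * S.s e₀) * (S.s e₀)⁻¹ := by group
      rw [h1, h]
      group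
    · rw [mem_cj] at hn
      have h1 := hab _ hn c (hC c.2)
      calc n * ((S.s e₀)⁻¹ * c * S.s e₀) =
          (S.s e₀)⁻¹ * (S.s e₀ * n * (S.s e₀)⁻¹ * c) * S.s e₀ := by group
        _ = (S.s e₀)⁻¹ * (c * (S.s e₀ * n * (S.s e₀)⁻¹)) * S.s e₀ := by rw [h1]
        _ = _ := by group

theorem er_enG (hT : ∀ g, tr ρ g = 0 → g = 1) (hne : S.C e₀ ≠ ⊥) (hC : S.C e₀ ≤ M)
    (hab : ∀ x ∈ M, ∀ y ∈ M, x * y = y * x) (w : S.V) :
    er (trs ρ (enG S e₀ M w : Set Γ)) ≤ er (trs ρ (S.G w : Set Γ) ∪ trs ρ (M : Set Γ)) := by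
  obtain ⟨Z, h1, h2, h3⟩ := exists_cl (trs ρ (S.G w : Set Γ) ∪ trs ρ (M : Set Γ))
  rw [← h3]
  refine er_mono ?_
  rintro _ ⟨x, hx, rfl⟩
  refine tr_sup (two_zero F) Z h2 (S.G w) _ (fun g hg => h1 (Or.inl ⟨g, hg, rfl⟩)) ?_ x
    (enG_le_closure w hx)
  intro n hn
  refine ⟨?_, ?_⟩
  · rcases hn with ⟨_, hn⟩ | ⟨_, hn⟩
    · exact h1 (Or.inr ⟨n, hn, rfl⟩)
    · exact h1 (Or.inr ⟨_, hn, tr_cj' _ _⟩)
  · obtain ⟨c, hc, hc1, hcn⟩ := new_comm hne hC hab w n hn
    exact ⟨c, hc, fun h => hc1 (hT c h), hcn⟩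

/-- the vertex groups which are abelian stay abelian -/
theorem enl_NA (hTor : Tor Γ) (hne : S.C e₀ ≠ ⊥) (hC : S.C e₀ ≤ M)
    (hab : ∀ x ∈ M, ∀ y ∈ M, x * y = y * x) (w : S.V) (h : ¬ S.NA w) :
    ¬ (enl S e₀ M).NA w := by
  have hG : ∀ x ∈ S.G w, ∀ y ∈ S.G w, x * y = y * x := not_not.1 h
  refine not_not.2 fun x hx y hy => ?_
  refine comm_closure _ ?_ x (enG_le_closure w hx) y (enG_le_closure w hy)
  have hc : ∀ n ∈ ((S.G w : Set Γ) ∪
      {n | (w = S.a e₀ ∧ n ∈ M) ∨ (w = S.b e₀ ∧ n ∈ cj (S.s e₀) M)}), n ≠ 1 →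
      ∃ c ∈ S.G w, c ≠ 1 ∧ n * c = c * n := by
    rintro n (hn | hn) hn1
    · exact ⟨n, hn, hn1, rfl⟩
    · exact new_comm hne hC hab w n hn
  intro x hx y hy
  by_cases hx1 : x = 1
  · rw [hx1, one_mul, mul_one]
  by_cases hy1 : y = 1
  · rw [hy1, one_mul, mul_one]
  obtain ⟨c, h1, h2, h3⟩ := hc x hx hx1
  obtain ⟨d, h4, h5, h6⟩ := hc y hy hy1
  exact hTor.trans x d y h5 (hTor.trans x c d h2 h3 (hG c h1 d h4)) h6.symm

theorem enl_NA' (w : S.V) (h : S.NA w) : (enl S e₀ M).NA w := by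
  intro h1
  exact h fun x hx y hy => h1 x (le_enG S e₀ M w hx) y (le_enG S e₀ M w hy)

theorem le_enl_dv (hC : S.C e₀ ≤ M) (w : S.V) : dv ρ S w ⊆ dv ρ (enl S e₀ M) w := by
  rintro _ ⟨c, ⟨e, he, hc⟩, rfl⟩
  exact ⟨c, ⟨e, he, le_enl_C S e₀ M hC e hc⟩, rfl⟩

theorem M_le_enl_dv (w : S.V) (hw : w = S.a e₀ ∨ w = S.b e₀) :
    trs ρ (M : Set Γ) ⊆ dv ρ (enl S e₀ M) w := by
  rintro _ ⟨c, hc, rfl⟩
  refine ⟨c, ⟨e₀, ?_, ?_⟩, rfl⟩
  · exact hw.imp (fun h => h.symm) fun h => h.symm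
  · rw [enl_C_self]
    exact hc

theorem enl_dv_ne (w : S.V) (ha : w ≠ S.a e₀) (hb : w ≠ S.b e₀) :
    dv ρ (enl S e₀ M) w = dv ρ S w := by
  ext t
  constructor
  · rintro ⟨c, ⟨e, he, hc⟩, rfl⟩
    have h1 : e ≠ e₀ := by
      rintro h
      rcases he with he | he
      · exact ha (by rw [← he, h]; rfl)
      · exact hb (by rw [← he, h]; rfl)
    rw [enl_C_ne S e₀ M h1] at hc
    exact ⟨c, ⟨e, he, hc⟩, rfl⟩
  · rintro ⟨c, ⟨e, he, hc⟩, rfl⟩
    have h1 : e ≠ e₀ := by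
      rintro h
      rcases he with he | he
      · exact ha (by rw [← he, h])
      · exact hb (by rw [← he, h])
    refine ⟨c, ⟨e, he, ?_⟩, rfl⟩
    rw [enl_C_ne S e₀ M h1]
    exact hc

theorem er_ne (hfin : er (Set.univ : Set F) ≠ ⊤) (X : Set F) : er X ≠ ⊤ :=
  ne_top_of_le_ne_top hfin (er_mono (Set.subset_univ X))

theorem rk_coe (hfin : er (Set.univ : Set F) ≠ ⊤) (X : Set F) : ((rk X : ℕ) : ℕ∞) = er X :=
  ENat.natCast_toNat (er_ne hfin X)

theorem rk_mono (hfin : er (Set.univ : Set F) ≠ ⊤) {X Y : Set F} (h : er X ≤ er Y) :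
    rk X ≤ rk Y := by
  rw [← rk_coe hfin X, ← rk_coe hfin Y] at h
  exact_mod_cast h

open Classical in
/-- the contribution of the vertex `w` to the measure -/
noncomputable def Tm (ρ : Γ →* SpecialLinearGroup (Fin 2) F) (S : GG Γ) (w : S.V) : ℕ :=
  if S.NA w then rk (trs ρ (S.G w : Set Γ)) - rk (dv ρ S w) else 0

theorem DD_eq (ρ : Γ →* SpecialLinearGroup (Fin 2) F) (S : GG Γ) :
    DD ρ S = ∑ w : S.V, Tm ρ S w := rfl

theorem enl_Tm (hTor : Tor Γ) (hT : ∀ g, tr ρ g = 0 → g = 1)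
    (hfin : er (Set.univ : Set F) ≠ ⊤) (hne : S.C e₀ ≠ ⊥) (hC : S.C e₀ ≤ M)
    (hab : ∀ x ∈ M, ∀ y ∈ M, x * y = y * x) (w : S.V) :
    Tm ρ (enl S e₀ M) w ≤ Tm ρ S w := by
  unfold Tm
  by_cases h : S.NA w
  · rw [if_pos h, if_pos (enl_NA' w h)]
    by_cases hw : w = S.a e₀ ∨ w = S.b e₀
    · have h1 := er_enG hT hne hC hab w
      have h2 := er_submod' (dv_sub (ρ := ρ) S w)
        (Set.subset_union_left : dv ρ S w ⊆ dv ρ S w ∪ trs ρ (M : Set Γ))
      have h3 : trs ρ (S.G w : Set Γ) ∪ (dv ρ S w ∪ trs ρ (M : Set Γ)) =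
          trs ρ (S.G w : Set Γ) ∪ trs ρ (M : Set Γ) := by
        rw [← Set.union_assoc, Set.union_eq_self_of_subset_right (dv_sub S w)]
      rw [h3] at h2
      have h4 : er (dv ρ S w ∪ trs ρ (M : Set Γ)) ≤ er (dv ρ (enl S e₀ M) w) :=
        er_mono (Set.union_subset (le_enl_dv hC w) (M_le_enl_dv w hw))
      have h5 : er (dv ρ S w) ≤ er (trs ρ (S.G w : Set Γ)) := er_mono (dv_sub S w)
      have k1 := rk_mono hfin h1
      have k4 := rk_mono hfin h4
      have k5 := rk_mono hfin h5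
      rw [← rk_coe hfin, ← rk_coe hfin (_ ∪ _), ← rk_coe hfin (trs ρ (S.G w : Set Γ)),
        ← rk_coe hfin (dv ρ S w ∪ _)] at h2
      have k2 : rk (dv ρ S w) + rk (trs ρ (S.G w : Set Γ) ∪ trs ρ (M : Set Γ)) ≤
        rk (trs ρ (S.G w : Set Γ)) + rk (dv ρ S w ∪ trs ρ (M : Set Γ)) := by exact_mod_cast h2
      change rk (trs ρ (enG S e₀ M w : Set Γ)) - _ ≤ _
      omega
    · push Not at hw
      rw [enl_dv_ne w hw.1 hw.2]
      change rk (trs ρ (enG S e₀ M w : Set Γ)) - _ ≤ _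
      rw [enG_ne S e₀ M hw.1 hw.2]
  · rw [if_neg (enl_NA hTor hne hC hab w h)]
    exact Nat.zero_le _

/-- THE MEASURE DOES NOT GROW. -/
theorem enl_DD (hTor : Tor Γ) (hT : ∀ g, tr ρ g = 0 → g = 1)
    (hfin : er (Set.univ : Set F) ≠ ⊤) (hne : S.C e₀ ≠ ⊥) (hC : S.C e₀ ≤ M)
    (hab : ∀ x ∈ M, ∀ y ∈ M, x * y = y * x) : DD ρ (enl S e₀ M) ≤ DD ρ S := by
  rw [DD_eq, DD_eq]
  exact Finset.sum_le_sum fun w _ => enl_Tm hTor hT hfin hne hC hab w

/-- minimality is preserved -/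
theorem smin_of_le {S S' : GG Γ} (hS : Smin ρ S) (hS' : S'.Adm) (hD : DD ρ S' ≤ DD ρ S)
    (hE : Fintype.card S'.E ≤ Fintype.card S.E) : Smin ρ S' := by
  refine ⟨hS', fun S'' hS'' => ?_⟩
  rcases hS.2 S'' hS'' with h | ⟨h1, h2⟩
  · exact Or.inl (lt_of_le_of_lt hD h)
  · rcases lt_or_eq_of_le hD with h | h
    · exact Or.inl (h1 ▸ h)
    · exact Or.inr ⟨h.trans h1, hE.trans h2⟩

theorem enl_smin (hTor : Tor Γ) (hT : ∀ g, tr ρ g = 0 → g = 1)
    (hfin : er (Set.univ : Set F) ≠ ⊤) (hS : Smin ρ S) (hC : S.C e₀ ≤ M) (hM : Okk S e₀ M)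
    (hab : ∀ x ∈ M, ∀ y ∈ M, x * y = y * x) (hfg : M.FG) : Smin ρ (enl S e₀ M) :=
  smin_of_le hS (enl_adm hS.1 hC hM hab hfg) (enl_DD hTor hT hfin (hS.1.ne e₀) hC hab) le_rfl

end enl

end Pool.Agent.SuFo
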