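import Pool.Agent.Lib.MP_305fdd_al.Fr.S.Norm
import Pool.Agent.Lib.MP_305fdd_al.Fr.S.Move
import Pool.Agent.Lib.MP_305fdd_al.Fr.S.Rk

/-!
# MP_305fdd_al, closed surface groups: the enlargement of an edge group (master text, 3.1)

`enl S e₀ M`: the group of the edge `e₀` becomes `M`, the groups of its ends become
`⟨G (a e₀), M⟩` and `⟨G (b e₀), s⁻¹ M s⟩`.  If `M` is contained in `G (a e₀)` or `s⁻¹ M s` is
contained in `G (b e₀)`, then the universal property and the admissibility are preserved.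
-/

set_option autoImplicit false
set_option linter.unusedSectionVars false

namespace Pool.Agent.SuFo

open Matrix Pool.Agent.FrN Pool.Agent.FrS Pool.Agent.FrS.GG Pool.Agent.FrAsm

section defs

variable {Γ : Type} [Group Γ]

/-- `s⁻¹ M s` -/
def cj (s : Γ) (M : Subgroup Γ) : Subgroup Γ := M.comap (MulAut.conj s).toMonoidHom

theorem mem_cj {s x : Γ} {M : Subgroup Γ} : x ∈ cj s M ↔ s * x * s⁻¹ ∈ M := Iff.rfl

theorem mem_cj' {s x : Γ} {M : Subgroup Γ} (h : x ∈ M) : s⁻¹ * x * s ∈ cj s M := by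
  rw [mem_cj]
  have h1 : s * (s⁻¹ * x * s) * s⁻¹ = x := by group
  rwa [h1]

/-- the group of the vertex `w` after the enlargement of the group of the edge `e₀` to `M` -/
def enG (S : GG Γ) (e₀ : S.E) (M : Subgroup Γ) (w : S.V) : Subgroup Γ :=
  S.G w ⊔ ((if w = S.a e₀ then M else ⊥) ⊔ (if w = S.b e₀ then cj (S.s e₀) M else ⊥))

theorem le_enG (S : GG Γ) (e₀ : S.E) (M : Subgroup Γ) (w : S.V) : S.G w ≤ enG S e₀ M w :=
  le_sup_left

theorem M_le_enG (S : GG Γ) (e₀ : S.E) (M : Subgroup Γ) : M ≤ enG S e₀ M (S.a e₀) := by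
  unfold enG
  rw [if_pos rfl]
  exact le_trans le_sup_left le_sup_right

theorem cj_le_enG (S : GG Γ) (e₀ : S.E) (M : Subgroup Γ) :
    cj (S.s e₀) M ≤ enG S e₀ M (S.b e₀) := by
  unfold enG
  rw [if_pos (rfl : S.b e₀ = S.b e₀)]
  exact le_trans le_sup_right le_sup_right

theorem enG_ne (S : GG Γ) (e₀ : S.E) (M : Subgroup Γ) {w : S.V} (ha : w ≠ S.a e₀)
    (hb : w ≠ S.b e₀) : enG S e₀ M w = S.G w := by
  unfold enG
  rw [if_neg ha, if_neg hb, sup_bot_eq, sup_bot_eq]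

theorem enG_le (S : GG Γ) (e₀ : S.E) (M : Subgroup Γ) {w : S.V} {K : Subgroup Γ}
    (h : S.G w ≤ K) (ha : w = S.a e₀ → M ≤ K) (hb : w = S.b e₀ → cj (S.s e₀) M ≤ K) :
    enG S e₀ M w ≤ K := by
  unfold enG
  refine sup_le h (sup_le ?_ ?_)
  · split_ifs with h1
    · exact ha h1
    · exact bot_le
  · split_ifs with h1
    · exact hb h1
    · exact bot_le

/-- The splitting with the edge group of `e₀` enlarged to `M`. -/
def enl (S : GG Γ) (e₀ : S.E) (M : Subgroup Γ) : GG Γ where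
  V := S.V
  E := S.E
  G := enG S e₀ M
  a := S.a
  b := S.b
  s := S.s
  C e := if e = e₀ then M else S.C e
  Ca e := by
    split_ifs with h
    · subst h
      exact M_le_enG S e M
    · exact le_trans (S.Ca e) (le_enG S e₀ M _)
  Cb e := by
    intro c hc
    split_ifs at hc with h
    · subst h
      exact cj_le_enG S e M (mem_cj' hc)
    · exact le_enG S e₀ M _ (S.Cb e c hc)

theorem enl_C_self (S : GG Γ) (e₀ : S.E) (M : Subgroup Γ) : (enl S e₀ M).C e₀ = M := if_pos rfl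

theorem enl_C_ne (S : GG Γ) (e₀ : S.E) (M : Subgroup Γ) {e : S.E} (h : e ≠ e₀) :
    (enl S e₀ M).C e = S.C e := if_neg h

theorem le_enl_C (S : GG Γ) (e₀ : S.E) (M : Subgroup Γ) (hC : S.C e₀ ≤ M) (e : S.E) :
    S.C e ≤ (enl S e₀ M).C e := by
  by_cases h : e = e₀
  · subst h
    rw [enl_C_self]
    exact hC
  · rw [enl_C_ne S e₀ M h]

theorem enl_pth (S : GG Γ) (e₀ : S.E) (M : Subgroup Γ) {u v : S.V} {g : Γ} (h : S.Pth u v g) :
    (enl S e₀ M).Pth u v g := by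
  induction h with
  | one => exact Pth.one _
  | grp _ hx ih => exact Pth.grp ih (le_enG S e₀ M _ hx)
  | fwd e _ ih => exact Pth.fwd (S := enl S e₀ M) e ih
  | bwd e _ ih => exact Pth.bwd (S := enl S e₀ M) e ih

/-- the restriction of a family -/
def enlFam (S : GG Γ) (e₀ : S.E) (M : Subgroup Γ) (hC : S.C e₀ ≤ M) {Q : Type} [Group Q]
    (F : Fam (enl S e₀ M) Q) : Fam S Q where
  r := F.r
  t := F.t
  mul v x hx y hy := F.mul v x (le_enG S e₀ M v hx) y (le_enG S e₀ M v hy)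
  cm e c hc := F.cm e c (le_enl_C S e₀ M hC e hc)

theorem enl_up {S : GG Γ} {e₀ : S.E} {M : Subgroup Γ} (hS : S.UP) (hC : S.C e₀ ≤ M)
    (hM : M ≤ S.G (S.a e₀) ∨ cj (S.s e₀) M ≤ S.G (S.b e₀)) : (enl S e₀ M).UP where
  gen u v g := enl_pth S e₀ M (hS.gen u v g)
  ext R _ _ F := by
    obtain ⟨r, g, hv, he⟩ := hS.ext R (enlFam S e₀ M hC F)
    refine ⟨r, g, ?_, he⟩
    have hv' : ∀ v, ∀ x ∈ S.G v, F.r v x = (g v)⁻¹ * r x * g v := hv
    have he' : F.t e₀ = (g (S.a e₀))⁻¹ * r (S.s e₀) * g (S.b e₀) := he e₀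
    have hcm : ∀ m ∈ M, F.r (S.a e₀) m =
        F.t e₀ * F.r (S.b e₀) ((S.s e₀)⁻¹ * m * S.s e₀) * (F.t e₀)⁻¹ := by
      intro m hm
      exact F.cm e₀ m (by rw [enl_C_self]; exact hm)
    have h1 : (∀ m ∈ M, F.r (S.a e₀) m = (g (S.a e₀))⁻¹ * r m * g (S.a e₀)) ∧
        ∀ m ∈ cj (S.s e₀) M, F.r (S.b e₀) m = (g (S.b e₀))⁻¹ * r m * g (S.b e₀) := by
      rcases hM with hM | hM
      · have h2 : ∀ m ∈ M, F.r (S.a e₀) m = (g (S.a e₀))⁻¹ * r m * g (S.a e₀) :=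
          fun m hm => hv' _ m (hM hm)
        refine ⟨h2, fun m hm => ?_⟩
        rw [mem_cj] at hm
        have h3 := hcm _ hm
        rw [h2 _ hm] at h3
        have h4 : (S.s e₀)⁻¹ * (S.s e₀ * m * (S.s e₀)⁻¹) * S.s e₀ = m := by group
        rw [h4] at h3
        have h5 : F.r (S.b e₀) m = (F.t e₀)⁻¹ * (F.t e₀ * F.r (S.b e₀) m * (F.t e₀)⁻¹) *
          F.t e₀ := by group
        rw [h5, ← h3, he']
        simp only [map_mul, map_inv]
        group
      · have h2 : ∀ m ∈ cj (S.s e₀) M, F.r (S.b e₀) m = (g (S.b e₀))⁻¹ * r m * g (S.b e₀) :=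
          fun m hm => hv' _ m (hM hm)
        refine ⟨fun m hm => ?_, h2⟩
        rw [hcm m hm, h2 _ (mem_cj' hm), he']
        simp only [map_mul, map_inv]
        group
    intro w x hx
    let K : Subgroup Γ :=
      { carrier := {x | x ∈ enG S e₀ M w ∧ F.r w x = (g w)⁻¹ * r x * g w}
        mul_mem' := by
          rintro x y ⟨hx, hx'⟩ ⟨hy, hy'⟩
          refine ⟨mul_mem hx hy, ?_⟩
          rw [F.mul w x hx y hy, hx', hy', map_mul]
          group
        one_mem' := by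
          refine ⟨one_mem _, ?_⟩
          rw [F.one, map_one]
          group
        inv_mem' := by
          rintro x ⟨hx, hx'⟩
          refine ⟨inv_mem hx, ?_⟩
          rw [F.inv w hx, hx', map_inv]
          group }
    have hK : enG S e₀ M w ≤ K := by
      refine enG_le S e₀ M ?_ ?_ ?_
      · exact fun x hx => ⟨le_enG S e₀ M w hx, hv' w x hx⟩
      · rintro rfl x hx
        exact ⟨M_le_enG S e₀ M hx, h1.1 x hx⟩
      · rintro rfl x hx
        exact ⟨cj_le_enG S e₀ M hx, h1.2 x hx⟩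
    exact (hK hx).2

theorem enl_leaf (S : GG Γ) (e₀ : S.E) (M : Subgroup Γ) (x : S.V) (e : S.E) :
    (enl S e₀ M).Leaf x e ↔ S.Leaf x e := Iff.rfl

/-- the side condition for the enlargement of the group of `e₀` to `M` -/
def Okk (S : GG Γ) (e₀ : S.E) (M : Subgroup Γ) : Prop :=
  (M ≤ S.G (S.a e₀) ∧ (S.NA (S.a e₀) ∨ ¬ S.Leaf (S.a e₀) e₀)) ∨
    (cj (S.s e₀) M ≤ S.G (S.b e₀) ∧ (S.NA (S.b e₀) ∨ ¬ S.Leaf (S.b e₀) e₀))

theorem Okk.le {S : GG Γ} {e₀ : S.E} {M : Subgroup Γ} (h : Okk S e₀ M) :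
    M ≤ S.G (S.a e₀) ∨ cj (S.s e₀) M ≤ S.G (S.b e₀) := h.imp (fun h => h.1) fun h => h.1

theorem enl_ntb {S : GG Γ} {e₀ : S.E} {M : Subgroup Γ} (hS : S.Adm)
    (hM : Okk S e₀ M) (hab : ∀ x ∈ M, ∀ y ∈ M, x * y = y * x) (e : S.E)
    (hne : S.a e ≠ S.b e) (hl : S.Leaf (S.b e) e) :
    ∃ g ∈ enG S e₀ M (S.b e), S.s e * g * (S.s e)⁻¹ ∉ (enl S e₀ M).C e := by
  by_cases h : e = e₀
  · subst h
    rw [enl_C_self]
    by_contra hcon
    push Not at hcon
    have hcon' : ∀ g ∈ S.G (S.b e), S.s e * g * (S.s e)⁻¹ ∈ M :=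
      fun g hg => hcon g (le_enG S e M _ hg)
    have hna : ¬ S.NA (S.b e) := by
      refine not_not.2 fun x hx y hy => ?_
      have h1 := hab _ (hcon' x hx) _ (hcon' y hy)
      have h2 : x * y = (S.s e)⁻¹ * (S.s e * x * (S.s e)⁻¹ * (S.s e * y * (S.s e)⁻¹)) *
        S.s e := by group
      rw [h2, h1]
      group
    rcases hM with hM | hM
    · obtain ⟨g, hg, hg'⟩ := hS.ntb e hne hl
      exact hg' (hS.leaf_b e hne hl hna hg (hM.1 (hcon' g hg)))
    · rcases hM.2 with h1 | h1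
      · exact hna h1
      · exact h1 hl
  · have ha : S.b e ≠ S.a e₀ := fun h1 => h (hl e₀ (Or.inl h1.symm)).symm
    have hb : S.b e ≠ S.b e₀ := fun h1 => h (hl e₀ (Or.inr h1.symm)).symm
    rw [enl_C_ne S e₀ M h, enG_ne S e₀ M ha hb]
    exact hS.ntb e hne hl

theorem enl_nta {S : GG Γ} {e₀ : S.E} {M : Subgroup Γ} (hS : S.Adm)
    (hM : Okk S e₀ M) (hab : ∀ x ∈ M, ∀ y ∈ M, x * y = y * x) (e : S.E)
    (hne : S.a e ≠ S.b e) (hl : S.Leaf (S.a e) e) :
    ∃ g ∈ enG S e₀ M (S.a e), g ∉ (enl S e₀ M).C e := by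
  by_cases h : e = e₀
  · subst h
    rw [enl_C_self]
    by_contra hcon
    push Not at hcon
    have hcon' : ∀ g ∈ S.G (S.a e), g ∈ M := fun g hg => hcon g (le_enG S e M _ hg)
    have hna : ¬ S.NA (S.a e) :=
      not_not.2 fun x hx y hy => hab _ (hcon' x hx) _ (hcon' y hy)
    rcases hM with hM | hM
    · rcases hM.2 with h1 | h1
      · exact hna h1
      · exact h1 hl
    · obtain ⟨g, hg, hg'⟩ := hS.nta e hne hl
      exact hg' (hS.leaf_a e hne hl hna hg (hM.1 (mem_cj' (hcon' g hg))))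
  · have ha : S.a e ≠ S.a e₀ := fun h1 => h (hl e₀ (Or.inl h1.symm)).symm
    have hb : S.a e ≠ S.b e₀ := fun h1 => h (hl e₀ (Or.inr h1.symm)).symm
    rw [enl_C_ne S e₀ M h, enG_ne S e₀ M ha hb]
    exact hS.nta e hne hl

theorem enl_C_cases {P : Subgroup Γ → Prop} (S : GG Γ) (e₀ : S.E) (M : Subgroup Γ) (hM : P M)
    (h : ∀ e, P (S.C e)) (e : S.E) : P ((enl S e₀ M).C e) := by
  by_cases h1 : e = e₀
  · subst h1
    rw [enl_C_self]
    exact hM
  · rw [enl_C_ne S e₀ M h1]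
    exact h e

theorem enl_adm {S : GG Γ} {e₀ : S.E} {M : Subgroup Γ} (hS : S.Adm) (hC : S.C e₀ ≤ M)
    (hM : Okk S e₀ M) (hab : ∀ x ∈ M, ∀ y ∈ M, x * y = y * x) (hfg : M.FG) :
    (enl S e₀ M).Adm where
  toUP := enl_up hS.toUP hC hM.le
  fgV w := by
    change (enG S e₀ M w).FG
    unfold enG
    refine (hS.fgV w).sup (Subgroup.FG.sup ?_ ?_)
    · split_ifs
      · exact hfg
      · exact Subgroup.FG.bot
    · split_ifs
      · exact fg_comap_conj hfg _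
      · exact Subgroup.FG.bot
  fgE := enl_C_cases (P := fun C => C.FG) S e₀ M hfg hS.fgE
  ne e h := hS.ne e (le_bot_iff.1 (h ▸ le_enl_C S e₀ M hC e))
  ab := enl_C_cases (P := fun C => ∀ x ∈ C, ∀ y ∈ C, x * y = y * x) S e₀ M hab hS.ab
  ntb e hne hl := enl_ntb hS hM hab e hne hl
  nta e hne hl := enl_nta hS hM hab e hne hl

end defs

end Pool.Agent.SuFo
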