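import Pool.Agent.Lib.MP_305fdd_al.Su.Fo.NoAb
import Pool.Agent.Lib.MP_305fdd_al.Su.Hon.Defs
import Pool.Agent.Lib.MP_305fdd_al.Su.S.NSG
import Pool.Agent.Lib.MP_305fdd_al.Fr.Roq.Main
import Mathlib.Data.DFinsupp.WellFounded

/-!
# MP_305fdd_al, closed surface groups: saturation of a minimal splitting (master text, 3.3)

`exists_sat`: there is a minimal splitting whose edge groups are their own centralisers in both vertex
groups; all its vertex groups are not abelian.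
-/

set_option autoImplicit false
set_option linter.unusedSectionVars false

namespace Pool.Agent.SuFo

open Matrix Pool.Agent.FrN Pool.Agent.FrS Pool.Agent.FrS.GG Pool.Agent.FrAsm Pool.Agent.SuH
  Pool.Agent.SuS

section wf

/-- the subgroups of a finitely generated commutative group -/
theorem wf_sub {Γ : Type} [Group Γ] (Z : Subgroup Γ) (hab : ∀ x ∈ Z, ∀ y ∈ Z, x * y = y * x)
    (hfg : Z.FG) : WellFoundedGT (Subgroup Z) := by
  let _ : CommGroup Z := { (inferInstance : Group Z) with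
    mul_comm := fun x y => Subtype.ext (hab x.1 x.2 y.1 y.2) }
  have h1 : Group.FG Z := (Group.fg_iff_subgroup_fg _).2 hfg
  have h2 : AddGroup.FG (Additive Z) := GroupFG.iff_add_fg.1 h1
  have h3 : Module.Finite ℤ (Additive Z) := Module.Finite.iff_addGroup_fg.2 h2
  have h4 : WellFoundedGT (Submodule ℤ (Additive Z)) := inferInstance
  let e : Subgroup Z ≃o Submodule ℤ (Additive Z) :=
    Subgroup.toAddSubgroup.trans AddSubgroup.toIntSubmodule
  exact e.strictMono.wellFoundedGT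

theorem wf_pi {ι : Type} [Finite ι] {α : ι → Type} [∀ i, Preorder (α i)]
    (h : ∀ i, WellFoundedGT (α i)) : WellFoundedGT (∀ i, α i) := by
  have h1 : ∀ i, WellFoundedLT (α i)ᵒᵈ := fun i => inferInstance
  have h2 : WellFoundedLT (∀ i, (α i)ᵒᵈ) := Pi.wellFoundedLT
  exact h2

end wf

section sat

variable {Γ F : Type} [Group Γ] [Field F] [Algebra (ZMod 2) F]
  {ρ : Γ →* SpecialLinearGroup (Fin 2) F}

/-- edge groups are their own centralisers in the group of the first end -/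
def SA (S : GG Γ) : Prop :=
  ∀ e, ∀ x ∈ S.G (S.a e), (∀ c ∈ S.C e, x * c = c * x) → x ∈ S.C e

/-- edge groups are their own centralisers in the group of the second end -/
def SB (S : GG Γ) : Prop :=
  ∀ e, ∀ y ∈ S.G (S.b e),
    (∀ c ∈ S.C e, (S.s e * y * (S.s e)⁻¹) * c = c * (S.s e * y * (S.s e)⁻¹)) →
    S.s e * y * (S.s e)⁻¹ ∈ S.C e

/-- the elements of `G` which commute with the elements of `C` -/
def cent (G C : Subgroup Γ) : Subgroup Γ := G ⊓ Subgroup.centralizer (C : Set Γ)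

theorem mem_cent {G C : Subgroup Γ} {x : Γ} : x ∈ cent G C ↔ x ∈ G ∧ ∀ c ∈ C, x * c = c * x := by
  unfold cent
  rw [Subgroup.mem_inf, Subgroup.mem_centralizer_iff]
  constructor
  · rintro ⟨h1, h2⟩
    exact ⟨h1, fun c hc => (h2 c hc).symm⟩
  · rintro ⟨h1, h2⟩
    exact ⟨h1, fun c hc => (h2 c hc).symm⟩

theorem cent_ab (hTor : Tor Γ) {G C : Subgroup Γ} (hne : C ≠ ⊥) :
    ∀ x ∈ cent G C, ∀ y ∈ cent G C, x * y = y * x := by
  obtain ⟨c, hc1⟩ := (Subgroup.ne_bot_iff_exists_ne_one).1 hne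
  have hcc : (c : Γ) ≠ 1 := fun h => hc1 (Subtype.ext h)
  intro x hx y hy
  exact hTor.trans x c y hcc ((mem_cent.1 hx).2 c c.2) ((mem_cent.1 hy).2 c c.2).symm

/-- one step of the saturation -/
theorem sat_step (hTor : Tor Γ) (hT : ∀ g, tr ρ g = 0 → g = 1)
    (hfin : er (Set.univ : Set F) ≠ ⊤)
    (hcfg : ∀ A : Subgroup Γ, (∀ x ∈ A, ∀ y ∈ A, x * y = y * x) → A.FG)
    (S : GG Γ) (hS : Smin ρ S) (hna : ∀ v, S.NA v) (h : ¬ (SA S ∧ SB S)) :
    ∃ (e₀ : S.E) (M : Subgroup Γ), Smin ρ (enl S e₀ M) ∧ S.C e₀ ≤ M ∧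
      ∃ x ∈ M, x ∉ S.C e₀ := by
  rw [not_and_or] at h
  rcases h with h | h
  · unfold SA at h
    push Not at h
    obtain ⟨e, x, hx, hxc, hx'⟩ := h
    have hab := cent_ab hTor (G := S.G (S.a e)) (hS.1.ne e)
    have hC : S.C e ≤ cent (S.G (S.a e)) (S.C e) :=
      fun c hc => mem_cent.2 ⟨S.Ca e hc, hS.1.ab e c hc⟩
    refine ⟨e, cent (S.G (S.a e)) (S.C e), enl_smin hTor hT hfin hS hC ?_ hab (hcfg _ hab), hC, x,
      mem_cent.2 ⟨hx, hxc⟩, hx'⟩
    exact Or.inl ⟨inf_le_left, Or.inl (hna _)⟩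
  · unfold SB at h
    push Not at h
    obtain ⟨e, y, hy, hyc, hy'⟩ := h
    have hab := cent_ab hTor (G := cj (S.s e)⁻¹ (S.G (S.b e))) (hS.1.ne e)
    have hC : S.C e ≤ cent (cj (S.s e)⁻¹ (S.G (S.b e))) (S.C e) := by
      intro c hc
      refine mem_cent.2 ⟨?_, hS.1.ab e c hc⟩
      rw [mem_cj, inv_inv]
      exact S.Cb e c hc
    refine ⟨e, cent (cj (S.s e)⁻¹ (S.G (S.b e))) (S.C e),
      enl_smin hTor hT hfin hS hC ?_ hab (hcfg _ hab), hC, S.s e * y * (S.s e)⁻¹,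
      mem_cent.2 ⟨?_, hyc⟩, hy'⟩
    · refine Or.inr ⟨?_, Or.inl (hna _)⟩
      intro x hx
      rw [mem_cj] at hx
      have h1 := (mem_cent.1 hx).1
      rw [mem_cj] at h1
      have h2 : (S.s e)⁻¹ * (S.s e * x * (S.s e)⁻¹) * (S.s e)⁻¹⁻¹ = x := by group
      rwa [h2] at h1
    · rw [mem_cj]
      have h2 : (S.s e)⁻¹ * (S.s e * y * (S.s e)⁻¹) * (S.s e)⁻¹⁻¹ = y := by group
      rwa [h2]

/-- SATURATION -/
theorem sat_max (hTor : Tor Γ) (hT : ∀ g, tr ρ g = 0 → g = 1)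
    (hfin : er (Set.univ : Set F) ≠ ⊤)
    (hcfg : ∀ A : Subgroup Γ, (∀ x ∈ A, ∀ y ∈ A, x * y = y * x) → A.FG)
    (hna : ∀ S : GG Γ, Smin ρ S → ∀ v, S.NA v) (S : GG Γ) (hS : Smin ρ S) :
    ∃ S' : GG Γ, Smin ρ S' ∧ SA S' ∧ SB S' := by
  have hc : ∀ e : S.E, ∃ c ∈ S.C e, c ≠ 1 := by
    intro e
    obtain ⟨c, hc⟩ := (S.C e).ne_bot_iff_exists_ne_one.1 (hS.1.ne e)
    exact ⟨c, c.2, fun h' => hc (Subtype.ext h')⟩
  choose c hc hc1 using hc
  let Z : S.E → Subgroup Γ := fun e => Subgroup.centralizer {c e}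
  have hZ : ∀ e x, x ∈ Z e ↔ x * c e = c e * x := by
    intro e x
    change x ∈ Subgroup.centralizer {c e} ↔ _
    rw [Subgroup.mem_centralizer_singleton_iff]
  have hZab : ∀ e, ∀ x ∈ Z e, ∀ y ∈ Z e, x * y = y * x := by
    intro e x hx y hy
    rw [hZ] at hx hy
    exact hTor.trans x (c e) y (hc1 e) hx hy.symm
  have hwf : WellFoundedGT (∀ e : S.E, Subgroup (Z e)) :=
    wf_pi fun e => wf_sub (Z e) (hZab e) (hcfg _ (hZab e))
  let 𝒯 : Set (∀ e : S.E, Subgroup (Z e)) :=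
    {m | ∃ (S' : GG Γ) (i : S.E ≃ S'.E), Smin ρ S' ∧ (∀ e, S.C e ≤ S'.C (i e)) ∧
      m = fun e => (S'.C (i e)).subgroupOf (Z e)}
  have h𝒯 : 𝒯.Nonempty := ⟨_, S, Equiv.refl _, hS, fun e => le_rfl, rfl⟩
  obtain ⟨m, ⟨S', i, hS', hle, hm⟩, hmax⟩ := hwf.wf.has_min 𝒯 h𝒯
  refine ⟨S', hS', ?_⟩
  by_contra hcon
  obtain ⟨e₀, M, hM, hCM, x, hx, hx'⟩ := sat_step hTor hT hfin hcfg S' hS' (hna S' hS') hcon
  have hMab : ∀ x ∈ M, ∀ y ∈ M, x * y = y * x := by
    have h1 := hM.1.ab e₀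
    rw [enl_C_self S' e₀ M] at h1
    exact h1
  apply hmax (fun e => ((enl S' e₀ M).C (i e)).subgroupOf (Z e))
  · exact ⟨enl S' e₀ M, i, hM, fun e => (hle e).trans (le_enl_C S' e₀ M hCM (i e)), rfl⟩
  · rw [Pi.lt_def]
    refine ⟨?_, i.symm e₀, ?_⟩
    · intro e y hy
      rw [hm] at hy
      exact le_enl_C S' e₀ M hCM (i e) hy
    · rw [hm]
      refine lt_of_le_of_ne ?_ ?_
      · intro y hy
        exact le_enl_C S' e₀ M hCM _ hy
      · intro h
        have h1 : x ∈ Z (i.symm e₀) := by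
          rw [hZ]
          refine hMab x hx _ (hCM ?_)
          have h2 := hle (i.symm e₀) (hc (i.symm e₀))
          rwa [Equiv.apply_symm_apply] at h2
        have h3 : (⟨x, h1⟩ : Z (i.symm e₀)) ∈
            ((enl S' e₀ M).C (i (i.symm e₀))).subgroupOf (Z (i.symm e₀)) := by
          rw [Subgroup.mem_subgroupOf, Equiv.apply_symm_apply, enl_C_self]
          exact hx
        rw [← h] at h3
        rw [Subgroup.mem_subgroupOf, Equiv.apply_symm_apply] at h3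
        exact hx' h3

end sat

section main

variable {Γ K F : Type} [Group Γ] [Field K] [Field F] [Algebra (ZMod 2) K]
  [Algebra (ZMod 2) F] [Algebra K F] {T : Γ → K} {ρ : Γ →* SpecialLinearGroup (Fin 2) F}

theorem sc_smin_NA (H : Sc Γ K F T ρ) (hex : EXh Γ) (S : GG Γ) (hS : Smin ρ S) (v : S.V) :
    S.NA v :=
  smin_NA (tor_of H.inj H.div) H.div (er_univ H) H.nab hex S hS v

/-- SATURATION: a minimal splitting of which all edge groups are their own centralisers in both vertex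
groups; its vertex groups are not abelian. -/
theorem exists_sat (H : Sc Γ K F T ρ) (hex : EXh Γ) : ∃ S : GG Γ, Smin ρ S ∧ Sat S := by
  obtain ⟨S, hS⟩ := exists_smin H.fg ρ
  obtain ⟨S', hS', ha, hb⟩ := sat_max (tor_of H.inj H.div) H.div (er_univ H)
    (fun A hA => FrRoq.comm_fg ρ H.fg H.div A hA) (fun S hS v => sc_smin_NA H hex S hS v) S hS
  exact ⟨S', hS', { up := hS'.1.toUP, fgV := hS'.1.fgV, fgE := hS'.1.fgE,
                    na := sc_smin_NA H hex S' hS', ne := hS'.1.ne, ab := hS'.1.ab,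
                    sa := ha, sb := hb }⟩

end main

end Pool.Agent.SuFo
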